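import Mathlib
import Pool.Agent.H13.UnitFree

/-! # The exact value of `M(n, k)` -/

namespace Pool.Agent.Results.MP_7e34bc_co.Exact

open Finset Pool.Agent.H13.UnitFree

/-- the candidate values `C(n₁, k₁) C(n₂, k₂)` -/
def Cand (n k : ℕ) : Set ℕ :=
  {v | ∃ n₁ n₂ k₁ k₂ : ℕ, n₁ + n₂ = n ∧ k₁ + k₂ = k ∧ 1 ≤ k₁ ∧ k₁ ≤ n₁ ∧ 1 ≤ k₂ ∧ k₂ ≤ n₂ ∧
    v = n₁.choose k₁ * n₂.choose k₂}

theorem upper {n k V : ℕ} (hk : 1 ≤ k) (hV : ∀ v ∈ Cand n k, v ≤ V)
    (S : Finset (Finset (Fin n))) (hS : ∀ A ∈ S, A.card = k) (hu : IsUnitFree S) :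
    S.card ≤ V := by
  classical
  obtain ⟨x, hx, hsum⟩ := exists_weights S hu
  apply lym x V S
  intro f g
  set F := S.filter (fun A => f.IsPrefix (pos x A) ∧ g.IsPrefix (neg x A)) with hF
  have hone : ∀ A ∈ F, ∀ B ∈ F, A = B := by
    intro A hA B hB
    by_contra hne
    have hA' := Finset.mem_filter.1 hA
    have hB' := Finset.mem_filter.1 hB
    have h := chain x hx (hsum A hA'.1) (hsum B hB'.1) hne f g hA'.2.1 hB'.2.1 hA'.2.2 hB'.2.2
    have h1 := card_split x hx A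
    have h2 := card_split x hx B
    rw [hS A hA'.1] at h1
    rw [hS B hB'.1] at h2
    omega
  rcases Finset.eq_empty_or_nonempty F with h0 | ⟨A, hA⟩
  · rw [h0, Finset.sum_empty]; exact Nat.zero_le _
  · have hFA : F = {A} := by
      apply Finset.eq_singleton_iff_unique_mem.2
      exact ⟨hA, fun B hB => hone B hB A hA⟩
    rw [hFA, Finset.sum_singleton]
    have hA' := Finset.mem_filter.1 hA
    have hne : A ≠ ∅ := by
      intro h
      have := hS A hA'.1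
      rw [h] at this
      simp at this
      omega
    have hpn := pos_card_pos x hx (hsum A hA'.1) hne
    apply hV
    refine ⟨_, _, _, _, card_parts x hx, ?_, hpn.1, Finset.card_le_univ _, hpn.2,
      Finset.card_le_univ _, rfl⟩
    rw [card_split x hx, hS A hA'.1]

theorem bddM (n k : ℕ) : BddAbove {m | ∃ S : Finset (Finset (Fin n)),
    (∀ A ∈ S, A.card = k) ∧ IsUnitFree S ∧ S.card = m} := by
  refine ⟨Fintype.card (Finset (Fin n)), ?_⟩
  rintro m ⟨S, -, -, rfl⟩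
  exact Finset.card_le_univ S

theorem M_le {n k V : ℕ} (hk : 1 ≤ k) (hV : ∀ v ∈ Cand n k, v ≤ V) : M n k ≤ V := by
  apply csSup_le
  · exact ⟨0, ∅, by simp, by intro i hi; simp at hi, by simp⟩
  · rintro m ⟨S, hS, hu, rfl⟩
    exact upper hk hV S hS hu

theorem le_M {n k v : ℕ} (hv : v ∈ Cand n k) : v ≤ M n k := by
  obtain ⟨n₁, n₂, k₁, k₂, hn, hk, h1, h2, h3, h4, rfl⟩ := hv
  apply le_csSup (bddM n k)
  refine ⟨block n n₁ k₁ k₂, ?_, ?_, card_block hn k₁ k₂⟩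
  · intro A hA
    rw [block_card hA, hk]
  · exact isUnitFree_of_weights _ (bw n n₁ k₁ k₂) (fun i => bw_ne h1 h3 i)
      (fun A hA => bw_sum (mul_comm _ _) hA)

/-- For `2 ≤ k ≤ n`, `M(n, k)` is the maximum of `C(n₁, k₁) C(n₂, k₂)` over all
`n₁ + n₂ = n`, `k₁ + k₂ = k`, `1 ≤ k₁ ≤ n₁`, `1 ≤ k₂ ≤ n₂`; and `M(n, 1) = 0`. -/
theorem result :
    (∀ n k : ℕ, 2 ≤ k → k ≤ n →
      IsGreatest {v | ∃ n₁ n₂ k₁ k₂ : ℕ, n₁ + n₂ = n ∧ k₁ + k₂ = k ∧ 1 ≤ k₁ ∧ k₁ ≤ n₁ ∧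
        1 ≤ k₂ ∧ k₂ ≤ n₂ ∧ v = n₁.choose k₁ * n₂.choose k₂} (M n k)) ∧
    (∀ n : ℕ, M n 1 = 0) := by
  refine ⟨?_, ?_⟩
  · intro n k hk hkn
    have hfin : (Cand n k).Finite := by
      apply Set.Finite.subset (Set.finite_le_nat (2 ^ n * 2 ^ n))
      rintro v ⟨n₁, n₂, k₁, k₂, hn, hk, h1, h2, h3, h4, rfl⟩
      have e1 : n₁.choose k₁ ≤ 2 ^ n :=
        le_trans (Nat.choose_le_two_pow _ _) (Nat.pow_le_pow_right (by norm_num) (by omega))
      have e2 : n₂.choose k₂ ≤ 2 ^ n :=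
        le_trans (Nat.choose_le_two_pow _ _) (Nat.pow_le_pow_right (by norm_num) (by omega))
      exact Nat.mul_le_mul e1 e2
    have hne : (Cand n k).Nonempty :=
      ⟨_, 1, n - 1, 1, k - 1, by omega, by omega, le_refl _, le_refl _, by omega, by omega, rfl⟩
    obtain ⟨V, hVmem, hVmax⟩ := hfin.exists_maximal hne
    have hV : ∀ v ∈ Cand n k, v ≤ V := by
      intro v hv
      rcases le_total v V with h | h
      · exact h
      · exact hVmax hv h
    have h1 : M n k = V := le_antisymm (M_le (by omega) hV) (le_M hVmem)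
    constructor
    · show M n k ∈ Cand n k
      rw [h1]; exact hVmem
    · rw [h1]
      intro v hv
      exact hV v hv
  · intro n
    apply Nat.le_zero.1
    apply M_le (le_refl 1)
    rintro v ⟨n₁, n₂, k₁, k₂, hn, hk, h1, h2, h3, h4, rfl⟩
    omega

end Pool.Agent.Results.MP_7e34bc_co.Exact
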